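import Pool.Agent.H436.HQ.Res

/-!
# Families of conic bundles of degree at most eight over affine spaces (helper436)
-/

set_option autoImplicit false

namespace Pool.Agent.H436.HQ

open Pool.Agent.H436.HP Pool.Agent.TH178.HI MvPolynomial

section fam

variable {k₀ : Type} [Field k₀] [CharZero k₀] {r n : ℕ}

/-- the values of the coefficients at the rational section `c` -/
noncomputable def av (k : Type) [Field k] [Algebra k₀ k] (c : Fin n → RF r k) :
    MvPolynomial (Fin (r + n)) k₀ →ₐ[k₀] RF r k :=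
  aeval (Fin.append (xv r k) c)

omit [CharZero k₀] in
lemma eval_rel {k : Type} [Field k] [Algebra k₀ k] (c : Fin n → RF r k)
    (p : MvPolynomial (Fin (r + n)) k₀) : eval c (rel k p) = av k c p := by
  have h := aeval_rel (k := k) (E := RF r k) c p
  rw [← MvPolynomial.coe_aeval_eq_eval]
  exact h

/-- The section `c` is split, off the hypersurface `h = 0`. -/
def SplitSec (k : Type) [Field k] [Algebra k₀ k] (a f h : MvPolynomial (Fin (r + n)) k₀) : Prop :=
  ∃ c : Fin n → RF r k, av k c h ≠ 0 ∧ ∃ X Y W : RF r k, ¬ (X = 0 ∧ Y = 0 ∧ W = 0) ∧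
    X ^ 2 = av k c a * Y ^ 2 + av k c f * W ^ 2

omit [CharZero k₀] in
lemma map_ne {k : Type} [Field k] [Algebra k₀ k] {N : ℕ} {s : MvPolynomial (Fin N) k₀}
    (hs : s ≠ 0) : map (algebraMap k₀ k) s ≠ 0 := by
  intro h
  apply hs
  apply map_injective (algebraMap k₀ k) (algebraMap k₀ k).injective
  rw [h, map_zero]

/-- **Function fields of families of conic bundles of degree at most eight.** -/
theorem fam_field {a f : MvPolynomial (Fin (r + n)) k₀} (ha : a ≠ 0) (hf : f ≠ 0)
    (hdis : ∀ j : Fin n, Fin.natAdd r j ∉ a.vars ∨ Fin.natAdd r j ∉ f.vars)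
    (hda : ∀ j : Fin n, degreeOf (Fin.natAdd r j) a ≤ 8)
    (hdf : ∀ j : Fin n, degreeOf (Fin.natAdd r j) f ≤ 8) :
    ∃ h : MvPolynomial (Fin (r + n)) k₀, h ≠ 0 ∧ ∀ (k : Type) [Field k] [Algebra k₀ k],
      SplitSec k a f h → ∀ (K : Type) [Field K] [Algebra k K],
        IsCoverField k (cbp (map (algebraMap k₀ k) a) (map (algebraMap k₀ k) f)) K →
        Realizable k K := by
  obtain ⟨s, a', ha', hsa⟩ := exists_sq ha
  obtain ⟨ρ, f', hf', hsf⟩ := exists_sq hf
  have hs : s ≠ 0 := by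
    rintro rfl
    exact ha (by rw [ha']; ring)
  have hρ : ρ ≠ 0 := by
    rintro rfl
    exact hf (by rw [hf']; ring)
  obtain ⟨Ha, hHa, hHa'⟩ := exists_Hg hsa
  obtain ⟨Hf, hHf, hHf'⟩ := exists_Hg hsf
  have hdeg : ∀ (s g : MvPolynomial (Fin (r + n)) k₀) (j : Fin (r + n)), s ≠ 0 → g ≠ 0 →
      degreeOf j g ≤ degreeOf j (s ^ 2 * g) := fun s g j hs hg => by
    rw [degreeOf_mul_eq (pow_ne_zero 2 hs) hg]
    omega
  refine ⟨s * ρ * (Ha * Hf), mul_ne_zero (mul_ne_zero hs hρ) (mul_ne_zero hHa hHf), ?_⟩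
  rintro k _ _ ⟨c, hc, X, Y, W, h0, hX⟩ K _ _ hK
  have hk : CharZero k := charZero_of_injective_algebraMap (algebraMap k₀ k).injective
  have hF : CharZero (RF r k) := charZero_of_injective_algebraMap
    (algebraMap k (RF r k)).injective
  rw [map_mul, map_mul] at hc
  have hsr := left_ne_zero_of_mul hc
  have hc1 := left_ne_zero_of_mul hsr
  have hc2 := right_ne_zero_of_mul hsr
  have hK1 : IsCoverField k (cbp (map (algebraMap k₀ k) a') (map (algebraMap k₀ k) f')) K :=
    cover_change (s := map (algebraMap k₀ k) s) (r := map (algebraMap k₀ k) ρ)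
      (by rw [ha', map_mul, map_pow]) (by rw [hf', map_mul, map_pow]) (map_ne hs) (map_ne hρ) hK
  obtain ⟨alg, tow, hK2⟩ := cover_rel hK1
  refine real_res (realizable (a := rel k a') (f := rel k f') (H := rel k (Ha * Hf)) (c := c)
    (X := X) (Y := av k c s * Y) (W := av k c ρ * W) ?_ ?_ ?_ ?_ ?_ ?_ ?_ hK2)
  · intro j
    rcases hdis j with h | h
    · exact Or.inl (notMem_vars_rel fun h' => h (ha' ▸ vars_of_mul hs hsa.ne_zero h'))
    · exact Or.inr (notMem_vars_rel fun h' => h (hf' ▸ vars_of_mul hρ hsf.ne_zero h'))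
  · exact fun j => (degreeOf_rel j a').trans ((hdeg s a' _ hs hsa.ne_zero).trans (ha' ▸ hda j))
  · exact fun j => (degreeOf_rel j f').trans ((hdeg ρ f' _ hρ hsf.ne_zero).trans (hf' ▸ hdf j))
  · intro E _ _ z hz
    let _ : Algebra k₀ E := ((algebraMap (RF r k) E).comp (algebraMap k₀ (RF r k))).toAlgebra
    have : IsScalarTower k₀ (RF r k) E := IsScalarTower.of_algebraMap_eq fun _ => rfl
    rw [aeval_rel, map_mul] at hz
    obtain ⟨h1, h2⟩ := hHa' E _ (left_ne_zero_of_mul hz)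
    obtain ⟨h3, h4⟩ := hHf' E _ (right_ne_zero_of_mul hz)
    rw [aeval_rel, aeval_rel]
    refine ⟨h1, h3, fun j hj => goodAt_rel (h2 _ ?_), fun j hj => goodAt_rel (h4 _ ?_)⟩
    · by_contra h
      exact notMem_vars_rel h hj
    · by_contra h
      exact notMem_vars_rel h hj
  · rw [eval_rel]
    exact right_ne_zero_of_mul hc
  · rintro ⟨h1, h2, h3⟩
    exact h0 ⟨h1, (mul_eq_zero.1 h2).resolve_left hc1, (mul_eq_zero.1 h3).resolve_left hc2⟩
  · rw [eval_rel, eval_rel, hX, ha', hf', map_mul, map_mul, map_pow, map_pow]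
    ring

end fam

end Pool.Agent.H436.HQ
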