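import Pool.Agent.H436.HQ.Rel
import Pool.Agent.H436.HP.Sch

/-!
# Regular unirationality over a field of rational functions and over the ground field (helper436)
-/

set_option autoImplicit false

namespace Pool.Agent.H436.HQ

open Pool.Agent.H436.HP Pool.Agent.TH178.HI MvPolynomial

section res

variable {k : Type} [Field k] {r : ℕ}

lemma rf_mem {E : Type} [Field E] [Algebra k E] [Algebra (RF r k) E] [IsScalarTower k (RF r k) E]
    {L : IntermediateField k E} (h : ∀ i, algebraMap (RF r k) E (xv r k i) ∈ L) (z : RF r k) :
    algebraMap (RF r k) E z ∈ L := by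
  have h1 : ∀ p : MvPolynomial (Fin r) k,
      algebraMap (RF r k) E (algebraMap (MvPolynomial (Fin r) k) (RF r k) p) ∈ L := by
    intro p
    induction p using MvPolynomial.induction_on with
    | C a =>
      have e : algebraMap (RF r k) E (algebraMap (MvPolynomial (Fin r) k) (RF r k) (C a)) =
          algebraMap k E a := by
        rw [← algebraMap_eq, ← IsScalarTower.algebraMap_apply k (MvPolynomial (Fin r) k) (RF r k),
          ← IsScalarTower.algebraMap_apply k (RF r k) E]
      rw [e]
      exact L.algebraMap_mem a
    | add p q hp hq => rw [map_add, map_add]; exact add_mem hp hq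
    | mul_X p i hp => rw [map_mul, map_mul]; exact mul_mem hp (h i)
  obtain ⟨a, b, -, rfl⟩ := IsFractionRing.div_surjective (A := MvPolynomial (Fin r) k) z
  rw [map_div₀]
  exact IntermediateField.div_mem _ (h1 a) (h1 b)

lemma xv_indep : AlgebraicIndependent k (xv r k) :=
  (MvPolynomial.algebraicIndependent_X (Fin r) k).map'
    (f := IsScalarTower.toAlgHom k (MvPolynomial (Fin r) k) (RF r k))
    (IsFractionRing.injective (MvPolynomial (Fin r) k) (RF r k))

/-- Restriction of the ground field. -/
theorem real_res {K : Type} [Field K] [Algebra k K] [Algebra (RF r k) K]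
    [IsScalarTower k (RF r k) K] (h : Realizable (RF r k) K) : Realizable k K := by
  obtain ⟨E, _, _, Ω, y, ⟨ι, hι, u, hu, hΩ⟩, hle, hcl⟩ := h
  let _ : Algebra k E := ((algebraMap (RF r k) E).comp (algebraMap k (RF r k))).toAlgebra
  have : IsScalarTower k (RF r k) E := IsScalarTower.of_algebraMap_eq fun _ => rfl
  have hmem : ∀ z, z ∈ (y.restrictScalars k).fieldRange ↔ z ∈ y.fieldRange := by
    intro z
    rw [AlgHom.mem_fieldRange, AlgHom.mem_fieldRange]
    rfl
  refine ⟨E, inferInstance, inferInstance, Ω.restrictScalars k, y.restrictScalars k,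
    ⟨ι ⊕ Fin r, inferInstance, Sum.elim u (algebraMap (RF r k) E ∘ xv r k),
      AlgebraicIndependent.sumElim_comp xv_indep hu, ?_⟩, ?_, ?_⟩
  · apply le_antisymm
    · rw [IntermediateField.adjoin_le_iff]
      rintro _ ⟨i | i, rfl⟩
      · change u i ∈ Ω
        rw [← hΩ]
        exact IntermediateField.subset_adjoin _ _ ⟨i, rfl⟩
      · exact Ω.algebraMap_mem _
    · intro z hz
      change z ∈ Ω at hz
      rw [← hΩ] at hz
      induction hz using IntermediateField.adjoin_induction with
      | mem x hx =>
        obtain ⟨i, rfl⟩ := hx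
        exact IntermediateField.subset_adjoin _ _ ⟨Sum.inl i, rfl⟩
      | algebraMap z =>
        exact rf_mem (L := IntermediateField.adjoin k
          (Set.range (Sum.elim u (algebraMap (RF r k) E ∘ xv r k))))
          (fun i => IntermediateField.subset_adjoin k _ ⟨Sum.inr i, rfl⟩) z
      | add x y _ _ hx hy => exact add_mem hx hy
      | inv x _ hx => exact inv_mem hx
      | mul x y _ _ hx hy => exact mul_mem hx hy
  · intro z hz
    exact hle ((hmem z).1 hz)
  · intro z hz hal
    rw [hmem]
    refine hcl z hz ?_
    rw [alg_iff] at hal ⊢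
    exact hal

end res

section cov

variable {k₀ k K : Type} [Field k₀] [Field k] [Field K] [Algebra k₀ k] [Algebra k K]
  {r n : ℕ}

lemma aeval_cbp {k E : Type} [Field k] [Field E] [Algebra k E] {n : ℕ} (b : Fin (n + 1) → E)
    (A B : MvPolynomial (Fin n) k) : aeval b (cbp A B) =
      aeval (b ∘ Fin.castSucc) A * b (Fin.last n) ^ 2 + aeval (b ∘ Fin.castSucc) B := by
  rw [cbp, map_add, map_mul, map_pow, aeval_rename, aeval_rename, aeval_X]

/-- Covers over the field of rational functions. -/
theorem cover_rel {a f : MvPolynomial (Fin (r + n)) k₀}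
    (hK : IsCoverField k (cbp (map (algebraMap k₀ k) a) (map (algebraMap k₀ k) f)) K) :
    ∃ _ : Algebra (RF r k) K, IsScalarTower k (RF r k) K ∧
      IsCoverField (RF r k) (cbp (rel k a) (rel k f)) K := by
  obtain ⟨t, w, ht, hw, htop⟩ := hK
  obtain ⟨x', hx'⟩ : ∃ x' : Fin r → K, x' = fun i => t (Fin.castAdd n i).castSucc := ⟨_, rfl⟩
  obtain ⟨t', ht'⟩ : ∃ t' : Fin (n + 1) → K, t' = fun j => t (Fin.natAdd r j) := ⟨_, rfl⟩
  have hxt : AlgebraicIndependent k (Sum.elim t' x') := by
    have h1 : Sum.elim t' x' = t ∘ Sum.elim (fun j : Fin (n + 1) => (Fin.natAdd r j : Fin (r + (n + 1))))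
        (fun i : Fin r => ((Fin.castAdd n i).castSucc : Fin (r + n + 1))) := by
      funext i
      rcases i with i | i
      · rw [Sum.elim_inl, ht']; rfl
      · rw [Sum.elim_inr, hx']; rfl
    rw [h1]
    refine ht.comp _ ?_
    rintro (i | i) (j | j) h
    · have h2 := congrArg Fin.val h
      simp only [Sum.elim_inl, Fin.val_natAdd] at h2
      congr 1
      ext
      omega
    · have h2 := congrArg Fin.val h
      simp only [Sum.elim_inl, Sum.elim_inr, Fin.val_natAdd, Fin.val_castSucc,
        Fin.val_castAdd] at h2
      have := j.2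
      omega
    · have h2 := congrArg Fin.val h
      simp only [Sum.elim_inl, Sum.elim_inr, Fin.val_natAdd, Fin.val_castSucc,
        Fin.val_castAdd] at h2
      have := i.2
      omega
    · have h2 := congrArg Fin.val h
      simp only [Sum.elim_inr, Fin.val_castSucc, Fin.val_castAdd] at h2
      congr 1
      ext
      omega
  obtain ⟨hx, ht2⟩ := AlgebraicIndependent.sumElim_iff.1 hxt
  let e : RF r k ≃ₐ[k] IntermediateField.adjoin k (Set.range x') := hx.aevalEquivField
  let φ : RF r k →ₐ[k] K := (IntermediateField.val _).comp e.toAlgHom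
  let alg : Algebra (RF r k) K := φ.toRingHom.toAlgebra
  have tow : IsScalarTower k (RF r k) K := IsScalarTower.of_algebraMap_eq fun c =>
    (φ.commutes c).symm
  have hφ : ∀ i, algebraMap (RF r k) K (xv r k i) = x' i := by
    intro i
    exact (hx.aevalEquivField_algebraMap_apply_coe (X i)).trans (aeval_X x' i)
  refine ⟨alg, tow, t', w, ?_, ?_, ?_⟩
  · rw [← IntermediateField.algebraicIndependent_adjoin_iff] at ht2
    let _ : Algebra (RF r k) (IntermediateField.adjoin k (Set.range x')) :=
      e.toRingEquiv.toRingHom.toAlgebra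
    have : IsScalarTower (RF r k) (IntermediateField.adjoin k (Set.range x')) K :=
      IsScalarTower.of_algebraMap_eq fun c => rfl
    exact ht2.restrictScalars e.injective
  · let _ : Algebra k₀ K := ((algebraMap k K).comp (algebraMap k₀ k)).toAlgebra
    have t1 : IsScalarTower k₀ k K := IsScalarTower.of_algebraMap_eq fun _ => rfl
    have t2 : IsScalarTower k₀ (RF r k) K := IsScalarTower.of_algebraMap_eq fun c => by
      rw [IsScalarTower.algebraMap_apply k₀ k K, IsScalarTower.algebraMap_apply k (RF r k) K,
        ← IsScalarTower.algebraMap_apply k₀ k (RF r k)]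
    have h3 : Fin.append (fun i => algebraMap (RF r k) K (xv r k i)) (t' ∘ Fin.castSucc) =
        t ∘ Fin.castSucc := by
      funext i
      refine Fin.addCases (fun i => ?_) (fun i => ?_) i
      · rw [Fin.append_left, hφ, hx']
        rfl
      · rw [Fin.append_right, ht']
        rfl
    rw [hw, aeval_cbp, aeval_cbp, aeval_rel, aeval_rel, h3, aeval_map_algebraMap,
      aeval_map_algebraMap, ht']
    rfl
  · rw [eq_top_iff]
    have h4 : IntermediateField.adjoin k (insert w (Set.range t)) ≤
        (IntermediateField.adjoin (RF r k) (insert w (Set.range t'))).restrictScalars k := by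
      rw [IntermediateField.adjoin_le_iff]
      rintro b (rfl | ⟨i, rfl⟩)
      · exact IntermediateField.subset_adjoin (RF r k) _ (Or.inl rfl)
      · change t i ∈ IntermediateField.adjoin (RF r k) (insert w (Set.range t'))
        have h5 : ∀ i : Fin (r + (n + 1)), t i ∈
            IntermediateField.adjoin (RF r k) (insert w (Set.range t')) := by
          intro i
          refine Fin.addCases (fun i => ?_) (fun i => ?_) i
          · have h6 : t (Fin.castAdd (n + 1) i) = algebraMap (RF r k) K (xv r k i) := by
              rw [hφ, hx']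
              rfl
            rw [h6]
            exact IntermediateField.algebraMap_mem _ _
          · refine IntermediateField.subset_adjoin (RF r k) _ (Or.inr ⟨i, ?_⟩)
            rw [ht']
        exact h5 i
    intro z _
    exact h4 (by rw [htop]; trivial)

end cov

end Pool.Agent.H436.HQ
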