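import Pool.Agent.H436.HQ.Tse

/-!
# Families of conic bundles of degree at most eight: the potential Hilbert property (helper436)
-/

set_option autoImplicit false

namespace Pool.Agent.H436.HQ

open Pool.Agent.H436.HP Pool.Agent.TH178.HI MvPolynomial

section split

variable {k₀ : Type} [Field k₀] {r n : ℕ}

/-- the restriction to a constant section -/
noncomputable def sp (b : Fin (r + n) → k₀) :
    MvPolynomial (Fin (r + n)) k₀ →ₐ[k₀] MvPolynomial (Fin r) k₀ :=
  aeval (Fin.append X (fun j => C (b (Fin.natAdd r j))))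

lemma eval_sp (b : Fin (r + n) → k₀) (p : MvPolynomial (Fin (r + n)) k₀) :
    eval (fun i => b (Fin.castAdd n i)) (sp b p) = eval b p := by
  induction p using MvPolynomial.induction_on with
  | C a => rw [sp, algHom_C, algebraMap_eq, eval_C, eval_C]
  | add p q hp hq => rw [map_add, map_add, map_add, hp, hq]
  | mul_X p i hp =>
    rw [map_mul, map_mul, map_mul, hp, eval_X]
    congr 1
    refine Fin.addCases (fun i => ?_) (fun i => ?_) i
    · rw [sp, aeval_X, Fin.append_left, eval_X]
    · rw [sp, aeval_X, Fin.append_right, eval_C]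

lemma av_sp (k : Type) [Field k] [Algebra k₀ k] (b : Fin (r + n) → k₀)
    (p : MvPolynomial (Fin (r + n)) k₀) :
    av k (fun j => algebraMap k₀ (RF r k) (b (Fin.natAdd r j))) p =
      algebraMap (MvPolynomial (Fin r) k) (RF r k) (map (algebraMap k₀ k) (sp b p)) := by
  induction p using MvPolynomial.induction_on with
  | C a =>
    rw [algHom_C, sp, algHom_C, algebraMap_eq, map_C, ← algebraMap_eq,
      IsScalarTower.algebraMap_apply k₀ k (RF r k),
      IsScalarTower.algebraMap_apply k (MvPolynomial (Fin r) k) (RF r k)]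
  | add p q hp hq => rw [map_add, map_add, map_add, map_add, hp, hq]
  | mul_X p i hp =>
    rw [map_mul, map_mul, map_mul, map_mul, hp]
    congr 1
    refine Fin.addCases (fun i => ?_) (fun i => ?_) i
    · rw [av, sp, aeval_X, aeval_X, Fin.append_left, Fin.append_left, map_X]
      rfl
    · rw [av, sp, aeval_X, aeval_X, Fin.append_right, Fin.append_right, map_C, ← algebraMap_eq,
        IsScalarTower.algebraMap_apply k₀ k (RF r k),
        IsScalarTower.algebraMap_apply k (MvPolynomial (Fin r) k) (RF r k)]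

/-- There is a split section over a finite extension. -/
lemma exists_splitSec [CharZero k₀] {a f h : MvPolynomial (Fin (1 + n)) k₀} (hh : h ≠ 0) :
    ∃ k : IntermediateField k₀ (AlgebraicClosure k₀), FiniteDimensional k₀ k ∧
      SplitSec k a f h := by
  obtain ⟨b, hb⟩ : ∃ b : Fin (1 + n) → k₀, eval b h ≠ 0 := by
    by_contra hc
    push Not at hc
    exact hh (MvPolynomial.funext fun b => by rw [hc b, map_zero])
  obtain ⟨k, hk, P, Q, R, h0, hPQ⟩ := tsen_fin (sp b a) (sp b f)
  have hinj := IsFractionRing.injective (MvPolynomial (Fin 1) k) (RF 1 k)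
  refine ⟨k, hk, fun j => algebraMap k₀ (RF 1 k) (b (Fin.natAdd 1 j)), ?_,
    algebraMap _ _ P, algebraMap _ _ Q, algebraMap _ _ R, ?_, ?_⟩
  · rw [av_sp, Ne, map_eq_zero_iff _ hinj]
    refine map_ne fun h' => hb ?_
    rw [← eval_sp, h', map_zero]
  · rintro ⟨h1, h2, h3⟩
    exact h0 ⟨(map_eq_zero_iff _ hinj).1 h1, (map_eq_zero_iff _ hinj).1 h2,
      (map_eq_zero_iff _ hinj).1 h3⟩
  · rw [av_sp, av_sp, ← map_pow, ← map_pow, ← map_pow, ← map_mul, ← map_mul, ← map_add, hPQ]

end split

section sch

open AlgebraicGeometry CategoryTheory W560.HP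

lemma fg_fin {k₀ k : Type} [Field k₀] [CharZero k₀] [Field k] [CharZero k] [Algebra k₀ k]
    [FiniteDimensional k₀ k] (h : ∃ S : Finset k₀, IntermediateField.adjoin ℚ (S : Set k₀) = ⊤) :
    ∃ S : Finset k, IntermediateField.adjoin ℚ (S : Set k) = ⊤ := by
  classical
  obtain ⟨S, hS⟩ := h
  let b := Module.finBasis k₀ k
  refine ⟨S.image (algebraMap k₀ k) ∪ Finset.univ.image b, ?_⟩
  rw [eq_top_iff]
  intro z _
  have h0 : ∀ c : k₀, algebraMap k₀ k c ∈ IntermediateField.adjoin ℚ
      ((S.image (algebraMap k₀ k) ∪ Finset.univ.image b : Finset k) : Set k) := by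
    intro c
    have hc : c ∈ IntermediateField.adjoin ℚ (S : Set k₀) := by rw [hS]; trivial
    induction hc using IntermediateField.adjoin_induction with
    | mem x hx =>
      exact IntermediateField.subset_adjoin _ _ (Finset.mem_coe.2 (Finset.mem_union_left _
        (Finset.mem_image_of_mem _ (Finset.mem_coe.1 hx))))
    | algebraMap q =>
      rw [eq_ratCast, map_ratCast, ← eq_ratCast (algebraMap ℚ k) q]
      exact IntermediateField.algebraMap_mem _ q
    | add x y _ _ hx hy => rw [map_add]; exact add_mem hx hy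
    | mul x y _ _ hx hy => rw [map_mul]; exact mul_mem hx hy
    | inv x _ hx => rw [map_inv₀]; exact inv_mem hx
  rw [← b.sum_repr z]
  refine sum_mem fun i _ => ?_
  rw [Algebra.smul_def]
  exact mul_mem (h0 _) (IntermediateField.subset_adjoin _ _ (by simp))

/-- From the function field to the schemes. -/
theorem sch_of {k : Type} [Field k] [CharZero k]
    (hk : ∃ S : Finset k, IntermediateField.adjoin ℚ (S : Set k) = ⊤) {N : ℕ}
    {P : MvPolynomial (Fin N) k} (hR : ∀ (K : Type) [Field K] [Algebra k K], IsCoverField k P K →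
      Realizable k K) (X : Scheme.{0}) [IsIntegral X] (p : X ⟶ Spec (CommRingCat.of k))
    [LocallyOfFiniteType p] (hX : BirationalToCover k P X p) :
    UnirationalScheme k X p ∧ DensePoints k X p ∧ HilbertProperty k X p ∧
      ((∀ x : X, IsIntegrallyClosed (X.presheaf.stalk x)) → HilbertPropertyIso k X p) := by
  obtain ⟨S, hS⟩ := hk
  have hN : HilbNR k := Pool.Agent.W405.HP.hit k (Pool.Agent.W583.HP.fg k S hS)
  obtain ⟨K, _, _, hK, e, he⟩ := hX
  have hP : HilbertProperty k X p := Pool.Agent.W253.HP.sch k X p K e he ((hR K hK).hpf hN)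
  refine ⟨?_, ?_, hP, fun h => iso_of_hp Pool.Agent.W376.HP.nrm k X p h hP⟩
  · obtain ⟨N, φ, -⟩ := of_realizable (hR K hK)
    refine ⟨Fin N, inferInstance, (φ : K →+* FractionRing (MvPolynomial (Fin N) k)).comp
      (e : X.functionField →+* K), fun b => ?_⟩
    change φ (e (toFF k X p b)) = _
    rw [he b, AlgHom.commutes]
  · refine (hP 0 (fun i => i.elim0) (fun i => i.elim0) (fun i => i.elim0) (fun i => i.elim0)
      (fun i => i.elim0) (fun i => i.elim0)).mono ?_
    rintro x ⟨s, hs, hx, -⟩
    exact ⟨s, hs, hx⟩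

end sch

end Pool.Agent.H436.HQ
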