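import Pool.Agent.H436.HP.Gen

/-!
# Polynomials as polynomials over the field of rational functions in some of the variables
(helper436)
-/

set_option autoImplicit false

namespace Pool.Agent.H436.HQ

open Pool.Agent.H436.HP Pool.Agent.TH178.HI MvPolynomial

/-- the field of rational functions in `r` variables -/
abbrev RF (r : ℕ) (k : Type) [Field k] : Type := FractionRing (MvPolynomial (Fin r) k)

section rel

variable {k₀ k : Type} [Field k₀] [Field k] [Algebra k₀ k] {r n : ℕ}

/-- the variables in the field of rational functions -/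
noncomputable def xv (r : ℕ) (k : Type) [Field k] (i : Fin r) : RF r k :=
  algebraMap (MvPolynomial (Fin r) k) (RF r k) (X i)

/-- the polynomial as a polynomial over the field of rational functions in the first variables -/
noncomputable def rel (k : Type) [Field k] [Algebra k₀ k] :
    MvPolynomial (Fin (r + n)) k₀ →ₐ[k₀] MvPolynomial (Fin n) (RF r k) :=
  aeval (Fin.append (fun i => C (xv r k i)) X)

lemma aeval_rel {E : Type} [Field E] [Algebra (RF r k) E] [Algebra k₀ E]
    [IsScalarTower k₀ (RF r k) E] (z : Fin n → E) (p : MvPolynomial (Fin (r + n)) k₀) :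
    aeval z (rel k p) = aeval (Fin.append (fun i => algebraMap (RF r k) E (xv r k i)) z) p := by
  have h := comp_aeval_apply (φ := (aeval z : MvPolynomial (Fin n) (RF r k) →ₐ[RF r k]
    E).restrictScalars k₀) (f := Fin.append (fun i => C (xv r k i)) X) p
  change aeval z (rel k p) = _ at h
  rw [h]
  congr 2
  funext i
  refine Fin.addCases (fun i => ?_) (fun i => ?_) i
  · rw [Fin.append_left, Fin.append_left]
    exact aeval_C z _
  · rw [Fin.append_right, Fin.append_right]
    exact aeval_X z i

lemma pderiv_rel (j : Fin n) (p : MvPolynomial (Fin (r + n)) k₀) :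
    pderiv j (rel k p) = rel k (pderiv (Fin.natAdd r j) p) := by
  induction p using MvPolynomial.induction_on with
  | C c =>
    rw [pderiv_C, map_zero, algHom_C,
      IsScalarTower.algebraMap_apply k₀ (RF r k) (MvPolynomial (Fin n) (RF r k)), algebraMap_eq,
      pderiv_C]
  | add p q hp hq => rw [map_add, map_add, map_add, map_add, hp, hq]
  | mul_X p i hp =>
    rw [map_mul, Derivation.leibniz, Derivation.leibniz, pderiv_X, hp, smul_eq_mul, smul_eq_mul,
      smul_eq_mul, smul_eq_mul, map_add, map_mul, map_mul]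
    congr 1
    refine Fin.addCases (fun i => ?_) (fun i => ?_) i
    · have h1 : rel k (X (Fin.castAdd n i) : MvPolynomial (Fin (r + n)) k₀) = C (xv r k i) := by
        rw [rel, aeval_X, Fin.append_left]
      have h2 : (Fin.castAdd n i : Fin (r + n)) ≠ Fin.natAdd r j := by
        intro h
        have := congrArg Fin.val h
        simp only [Fin.val_castAdd, Fin.val_natAdd] at this
        omega
      rw [h1, pderiv_C, Pi.single_eq_of_ne h2, map_zero]
    · have h1 : rel k (X (Fin.natAdd r i) : MvPolynomial (Fin (r + n)) k₀) = X i := by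
        rw [rel, aeval_X, Fin.append_right]
      rw [h1, pderiv_X]
      by_cases hi : i = j
      · subst hi
        rw [Pi.single_eq_same, Pi.single_eq_same, map_one]
      · have h2 : (Fin.natAdd r i : Fin (r + n)) ≠ Fin.natAdd r j := fun h =>
          hi (Fin.natAdd_injective _ _ h)
        rw [Pi.single_eq_of_ne hi, Pi.single_eq_of_ne h2, map_zero]

lemma degreeOf_rel (j : Fin n) (p : MvPolynomial (Fin (r + n)) k₀) :
    degreeOf j (rel k p) ≤ degreeOf (Fin.natAdd r j) p := by
  classical
  rw [rel, aeval_def, eval₂_eq]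
  refine (degreeOf_sum_le _ _ _).trans (Finset.sup_le fun d hd => ?_)
  refine (degreeOf_mul_le _ _ _).trans ?_
  rw [IsScalarTower.algebraMap_apply k₀ (RF r k) (MvPolynomial (Fin n) (RF r k)), algebraMap_eq,
    degreeOf_C, zero_add]
  refine (degreeOf_prod_le _ _ _).trans ?_
  have h1 : ∀ i ∈ d.support, degreeOf j ((Fin.append (fun i => C (xv r k i)) X :
      Fin (r + n) → MvPolynomial (Fin n) (RF r k)) i ^ d i) ≤
      if i = Fin.natAdd r j then d (Fin.natAdd r j) else 0 := by
    intro i _
    refine (degreeOf_pow_le _ _ _).trans ?_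
    refine Fin.addCases (fun i => ?_) (fun i => ?_) i
    · rw [Fin.append_left, degreeOf_C, mul_zero]
      exact Nat.zero_le _
    · rw [Fin.append_right, degreeOf_X]
      by_cases hi : j = i
      · subst hi
        rw [if_pos rfl, if_pos rfl, mul_one]
      · rw [if_neg hi, mul_zero]
        exact Nat.zero_le _
  refine (Finset.sum_le_sum h1).trans ?_
  rw [Finset.sum_ite_eq']
  split_ifs
  · exact monomial_le_degreeOf _ hd
  · exact Nat.zero_le _

lemma notMem_vars_rel {j : Fin n} {p : MvPolynomial (Fin (r + n)) k₀}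
    (h : Fin.natAdd r j ∉ p.vars) : j ∉ (rel k p).vars := by
  rw [mem_vars_iff_degreeOf_ne_zero, not_not] at h ⊢
  have := degreeOf_rel (k := k) j p
  omega

lemma W3_rel (j : Fin n) (g : MvPolynomial (Fin (r + n)) k₀) :
    W3 j (rel k g) = rel k (W3 (Fin.natAdd r j) g) := by
  rw [W3, W3, pderiv_rel, pderiv_rel, pderiv_rel]
  simp only [map_add, map_sub, map_mul, map_pow, map_ofNat]

lemma goodAt_rel {E : Type} [Field E] [Algebra (RF r k) E] [Algebra k₀ E]
    [IsScalarTower k₀ (RF r k) E] {z : Fin n → E} {j : Fin n} {g : MvPolynomial (Fin (r + n)) k₀}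
    (h : GoodAt (Fin.natAdd r j) g
      (Fin.append (fun i => algebraMap (RF r k) E (xv r k i)) z)) : GoodAt j (rel k g) z := by
  obtain ⟨h0, h1, h2, u, v, ρ, hr, hj, h3⟩ := h
  refine ⟨?_, ?_, ?_, rel k u, rel k v, rel k ρ, ?_, notMem_vars_rel hj, ?_⟩
  · rwa [aeval_rel]
  · rwa [pderiv_rel, aeval_rel]
  · rwa [W3_rel, aeval_rel]
  · rw [pderiv_rel, ← hr, map_add, map_mul, map_mul]
  · rwa [aeval_rel]

end rel

end Pool.Agent.H436.HQ
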