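import Pool.Agent.H436.HQ.Fam
import Pool.Graph.R_seed8.H552R3.Tsen.C1

/-!
# Conics over a field of rational functions in one variable (helper436)
-/

set_option autoImplicit false

namespace Pool.Agent.H436.HQ

open Pool.Agent.H436.HP Pool.Agent.TH178.HI MvPolynomial

section tsen

variable {Ω : Type} [Field Ω]

lemma exists_uni (P : MvPolynomial (Fin 1) Ω) : ∃ p : Polynomial Ω,
    Polynomial.aeval (X 0 : MvPolynomial (Fin 1) Ω) p = P := by
  induction P using MvPolynomial.induction_on with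
  | C a => exact ⟨Polynomial.C a, by rw [Polynomial.aeval_C, algebraMap_eq]⟩
  | add p q hp hq =>
    obtain ⟨p', rfl⟩ := hp
    obtain ⟨q', rfl⟩ := hq
    exact ⟨p' + q', by rw [map_add]⟩
  | mul_X p i hp =>
    obtain ⟨p', rfl⟩ := hp
    refine ⟨p' * Polynomial.X, ?_⟩
    rw [map_mul, Polynomial.aeval_X, Subsingleton.elim i 0]

/-- Tsen's theorem for conics. -/
lemma tsen [IsAlgClosed Ω] (A B : RF 1 Ω) : ∃ X Y W : RF 1 Ω, ¬ (X = 0 ∧ Y = 0 ∧ W = 0) ∧
    X ^ 2 = A * Y ^ 2 + B * W ^ 2 := by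
  classical
  obtain ⟨x, hx⟩ : ∃ x, x = xv 1 Ω 0 := ⟨_, rfl⟩
  have htr : Transcendental Ω x := by
    rw [hx]
    exact (xv_indep (k := Ω) (r := 1)).transcendental 0
  have hal : ∀ p : Polynomial Ω, Polynomial.aeval x p =
      algebraMap (MvPolynomial (Fin 1) Ω) (RF 1 Ω) (Polynomial.aeval (X 0) p) := by
    intro p
    rw [hx, xv, Polynomial.aeval_algebraMap_apply]
  obtain ⟨w, hw0, hw⟩ := Pool.Agent.H552R3.Tsen.exists_zero x (fun _ : Unit => (1 : RF 1 Ω)) htr
    (by
      intro z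
      obtain ⟨p, q, hq, rfl⟩ := IsFractionRing.div_surjective (A := MvPolynomial (Fin 1) Ω) z
      obtain ⟨p', hp'⟩ := exists_uni p
      obtain ⟨q', hq'⟩ := exists_uni q
      have hq0 : q ≠ 0 := nonZeroDivisors.ne_zero hq
      have hq1 : algebraMap (MvPolynomial (Fin 1) Ω) (RF 1 Ω) q ≠ 0 := by
        rwa [Ne, map_eq_zero_iff _ (IsFractionRing.injective (MvPolynomial (Fin 1) Ω) (RF 1 Ω))]
      refine ⟨q', ?_, fun _ => p', ?_⟩
      · rintro rfl
        rw [map_zero] at hq'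
        exact hq0 hq'.symm
      · rw [Fintype.sum_unique, hal, hal, hp', hq', mul_one]
        field_simp)
    (by
      intro p hp j
      rw [Fintype.sum_unique, mul_one] at hp
      by_contra h
      exact htr ⟨p j, h, by rw [Subsingleton.elim j default]; exact hp⟩)
    (I := Fin 3) (X 0 ^ 2 - C A * X 1 ^ 2 - C B * X 2 ^ 2) 2
    (by
      refine (totalDegree_sub _ _).trans (max_le ((totalDegree_sub _ _).trans (max_le ?_ ?_)) ?_)
      · rw [totalDegree_X_pow]
      · refine (totalDegree_mul _ _).trans ?_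
        rw [totalDegree_C, totalDegree_X_pow]
      · refine (totalDegree_mul _ _).trans ?_
        rw [totalDegree_C, totalDegree_X_pow])
    (by simp) (by simp)
  refine ⟨w 0, w 1, w 2, ?_, ?_⟩
  · rintro ⟨h0, h1, h2⟩
    apply hw0
    funext i
    fin_cases i
    · exact h0
    · exact h1
    · exact h2
  · simp only [map_sub, map_mul, map_pow, eval_X, eval_C] at hw
    linear_combination hw

/-- Polynomial solutions. -/
lemma tsen_poly [IsAlgClosed Ω] (A B : MvPolynomial (Fin 1) Ω) :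
    ∃ P Q R : MvPolynomial (Fin 1) Ω, ¬ (P = 0 ∧ Q = 0 ∧ R = 0) ∧
      P ^ 2 = A * Q ^ 2 + B * R ^ 2 := by
  have hinj := IsFractionRing.injective (MvPolynomial (Fin 1) Ω) (RF 1 Ω)
  obtain ⟨X, Y, W, h0, h⟩ := tsen (algebraMap (MvPolynomial (Fin 1) Ω) (RF 1 Ω) A)
    (algebraMap (MvPolynomial (Fin 1) Ω) (RF 1 Ω) B)
  obtain ⟨p1, q1, hq1, rfl⟩ := IsFractionRing.div_surjective (A := MvPolynomial (Fin 1) Ω) X
  obtain ⟨p2, q2, hq2, rfl⟩ := IsFractionRing.div_surjective (A := MvPolynomial (Fin 1) Ω) Y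
  obtain ⟨p3, q3, hq3, rfl⟩ := IsFractionRing.div_surjective (A := MvPolynomial (Fin 1) Ω) W
  have ne : ∀ q ∈ nonZeroDivisors (MvPolynomial (Fin 1) Ω), q ≠ 0 ∧
      algebraMap (MvPolynomial (Fin 1) Ω) (RF 1 Ω) q ≠ 0 := fun q hq =>
    ⟨nonZeroDivisors.ne_zero hq, by
      rw [Ne, map_eq_zero_iff _ hinj]
      exact nonZeroDivisors.ne_zero hq⟩
  obtain ⟨n1, m1⟩ := ne q1 hq1
  obtain ⟨n2, m2⟩ := ne q2 hq2
  obtain ⟨n3, m3⟩ := ne q3 hq3
  refine ⟨p1 * (q2 * q3), p2 * (q1 * q3), p3 * (q1 * q2), ?_, ?_⟩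
  · rintro ⟨e1, e2, e3⟩
    apply h0
    rw [(mul_eq_zero.1 e1).resolve_right (mul_ne_zero n2 n3),
      (mul_eq_zero.1 e2).resolve_right (mul_ne_zero n1 n3),
      (mul_eq_zero.1 e3).resolve_right (mul_ne_zero n1 n2)]
    simp
  · apply hinj
    simp only [map_add, map_mul, map_pow]
    field_simp at h
    linear_combination h

end tsen

section desc

variable {k₀ : Type} [Field k₀]

/-- The solutions are defined over a finite extension. -/
lemma tsen_fin (A B : MvPolynomial (Fin 1) k₀) :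
    ∃ k : IntermediateField k₀ (AlgebraicClosure k₀), FiniteDimensional k₀ k ∧
      ∃ P Q R : MvPolynomial (Fin 1) k, ¬ (P = 0 ∧ Q = 0 ∧ R = 0) ∧
        P ^ 2 = map (algebraMap k₀ k) A * Q ^ 2 + map (algebraMap k₀ k) B * R ^ 2 := by
  classical
  obtain ⟨P, Q, R, h0, h⟩ := tsen_poly (map (algebraMap k₀ (AlgebraicClosure k₀)) A)
    (map (algebraMap k₀ (AlgebraicClosure k₀)) B)
  obtain ⟨S, hS⟩ : ∃ S : Finset (AlgebraicClosure k₀), S = P.coeffs ∪ Q.coeffs ∪ R.coeffs :=
    ⟨_, rfl⟩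
  obtain ⟨k, hk⟩ : ∃ k, k = IntermediateField.adjoin k₀ (S : Set (AlgebraicClosure k₀)) :=
    ⟨_, rfl⟩
  have hfin : FiniteDimensional k₀ k := by
    rw [hk]
    exact IntermediateField.finiteDimensional_adjoin fun x _ =>
      (Algebra.IsAlgebraic.isAlgebraic x).isIntegral
  have hr : ∀ D : MvPolynomial (Fin 1) (AlgebraicClosure k₀), D.coeffs ⊆ S →
      ∃ D' : MvPolynomial (Fin 1) k, map (algebraMap k (AlgebraicClosure k₀)) D' = D := by
    intro D hD
    have h1 : D ∈ Set.range (map (algebraMap k (AlgebraicClosure k₀)) :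
        MvPolynomial (Fin 1) k → _) := by
      rw [mem_range_map_iff_coeffs_subset]
      intro c hc
      have h2 : c ∈ k := by
        rw [hk]
        exact IntermediateField.subset_adjoin _ _ (Finset.mem_coe.2 (hD hc))
      exact ⟨⟨c, h2⟩, rfl⟩
    exact h1
  obtain ⟨P', hP⟩ := hr P (by rw [hS, Finset.union_assoc]; exact Finset.subset_union_left)
  obtain ⟨Q', hQ⟩ := hr Q (by
    rw [hS]
    exact Finset.subset_union_right.trans Finset.subset_union_left)
  obtain ⟨R', hR⟩ := hr R (by rw [hS]; exact Finset.subset_union_right)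
  refine ⟨k, hfin, P', Q', R', ?_, ?_⟩
  · rintro ⟨rfl, rfl, rfl⟩
    rw [map_zero] at hP hQ hR
    exact h0 ⟨hP.symm, hQ.symm, hR.symm⟩
  · apply map_injective (algebraMap k (AlgebraicClosure k₀))
      (algebraMap k (AlgebraicClosure k₀)).injective
    rw [map_pow, map_add, map_mul, map_mul, map_pow, map_pow, hP, hQ, hR, map_map, map_map, h,
      ← IsScalarTower.algebraMap_eq]

end desc

end Pool.Agent.H436.HQ
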